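import Pool.Agent.H90J.Entropy

/-! The core argument: right special words against determinism. -/

set_option linter.style.longLine false
set_option linter.unusedSectionVars false

namespace Pool.Agent.H90J

open MeasureTheory ProbabilityTheory Filter Topology

section RightSpecial

variable {X A : Type*} [MeasurableSpace X] [MeasurableSpace A] [MeasurableSingletonClass A] [Finite A]

/-- In a weakly mixing system every nonconstant finite valued process has right special words of
every length. -/
theorem exists_right_special (μ : Measure X) [IsProbabilityMeasure μ] {T : X → X} (hT : Measurable T)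
    (herg : Ergodic (Prod.map T T) (μ.prod μ)) {α : X → A} (hα : Measurable α)
    (hnc : ¬ ∃ a, ∀ᵐ x ∂μ, α x = a) (n : ℕ) (hn : 1 ≤ n) :
    ∃ (v : Fin n → A) (a b : A), a ≠ b ∧ μ (cyl T α n v ∩ {x | α (T^[n] x) = a}) ≠ 0 ∧
      μ (cyl T α n v ∩ {x | α (T^[n] x) = b}) ≠ 0 := by
  classical
  by_contra hcon
  push Not at hcon
  haveI := Fintype.ofFinite A
  -- almost every point lies only in words of positive measure
  have hbad : ∀ᵐ x ∂μ, ∀ (v : Fin n → A) (a : A), x ∈ cyl T α n v ∩ {x | α (T^[n] x) = a} →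
      μ (cyl T α n v ∩ {x | α (T^[n] x) = a}) ≠ 0 := by
    rw [ae_all_iff]; intro v
    rw [ae_all_iff]; intro a
    by_cases h : μ (cyl T α n v ∩ {x | α (T^[n] x) = a}) = 0
    · have := measure_eq_zero_iff_ae_notMem.1 h
      filter_upwards [this] with x hx hx'
      exact absurd hx' hx
    · exact Filter.Eventually.of_forall fun x _ => h
  let w : X → (Fin n → A) := fun x j => α (T^[j] x)
  have hw : Measurable w := measurable_pi_lambda _ fun j => hα.comp (hT.iterate _)
  let D : Set (X × X) := {p | w p.1 = w p.2}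
  have hD : MeasurableSet D := measurableSet_eq_fun (hw.comp measurable_fst) (hw.comp measurable_snd)
  have hcyl : ∀ v : Fin n → A, cyl T α n v = w ⁻¹' {v} := by
    intro v; ext x
    simp only [cyl, w, Set.mem_setOf_eq, Set.mem_preimage, Set.mem_singleton_iff, funext_iff]
  have hsub : D ≤ᵐ[μ.prod μ] (Prod.map T T) ⁻¹' D := by
    have h1 : ∀ᵐ p ∂(μ.prod μ), (∀ (v : Fin n → A) (a : A),
        p.1 ∈ cyl T α n v ∩ {x | α (T^[n] x) = a} →
      μ (cyl T α n v ∩ {x | α (T^[n] x) = a}) ≠ 0) :=
      Measure.quasiMeasurePreserving_fst.ae hbad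
    have h2 : ∀ᵐ p ∂(μ.prod μ), (∀ (v : Fin n → A) (a : A),
        p.2 ∈ cyl T α n v ∩ {x | α (T^[n] x) = a} →
      μ (cyl T α n v ∩ {x | α (T^[n] x) = a}) ≠ 0) :=
      Measure.quasiMeasurePreserving_snd.ae hbad
    filter_upwards [h1, h2] with p hp1 hp2 hpD
    have hpD' : w p.1 = w p.2 := hpD
    have hv1 : p.1 ∈ cyl T α n (w p.1) := by rw [hcyl]; rfl
    have hv2 : p.2 ∈ cyl T α n (w p.1) := by rw [hcyl, hpD']; rfl
    have ha := hp1 (w p.1) (α (T^[n] p.1)) ⟨hv1, rfl⟩
    have hb := hp2 (w p.1) (α (T^[n] p.2)) ⟨hv2, rfl⟩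
    have hab : α (T^[n] p.1) = α (T^[n] p.2) := by
      by_contra hne
      exact hb (hcon (w p.1) _ _ hne ha)
    change w (T p.1) = w (T p.2)
    funext j
    change α (T^[j] (T p.1)) = α (T^[j] (T p.2))
    rw [← Function.iterate_succ_apply, ← Function.iterate_succ_apply]
    rcases Nat.lt_or_ge (j.val + 1) n with h | h
    · have := congrFun hpD' ⟨j.val + 1, h⟩
      exact this
    · have hj : j.val + 1 = n := by omega
      rw [Nat.succ_eq_add_one, hj]; exact hab
  have hzo := herg.ae_empty_or_univ_of_ae_le_preimage hD.nullMeasurableSet hsub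
  -- some word has positive measure
  obtain ⟨v, hv⟩ : ∃ v, μ (w ⁻¹' {v}) ≠ 0 := by
    by_contra hall
    push Not at hall
    have : μ Set.univ = 0 := by
      have hcov : (Set.univ : Set X) = ⋃ v, w ⁻¹' {v} := by
        ext x; simp
      rw [hcov, measure_iUnion_null_iff]
      exact hall
    simp at this
  have hDpos : μ.prod μ D ≠ 0 := by
    intro h0
    have hle : μ.prod μ ((w ⁻¹' {v}) ×ˢ (w ⁻¹' {v})) ≤ μ.prod μ D := by
      apply measure_mono
      rintro ⟨p, q⟩ ⟨hp, hq⟩
      simp only [Set.mem_preimage, Set.mem_singleton_iff] at hp hq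
      change w p = w q
      rw [hp, hq]
    rw [Measure.prod_prod, h0] at hle
    have := le_antisymm hle bot_le
    simp only [bot_eq_zero', mul_eq_zero, or_self] at this
    exact hv this
  rcases hzo with h | h
  · exact hDpos (measure_congr h |>.trans (by simp))
  · -- D has full measure
    have hcompl : μ.prod μ ((w ⁻¹' {v}) ×ˢ (w ⁻¹' {v})ᶜ) = 0 := by
      have hD1 : μ.prod μ Dᶜ = 0 := by
        have : ∀ᵐ p ∂(μ.prod μ), p ∈ D := by
          filter_upwards [h] with p hp
          change D p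
          rw [hp]; trivial
        exact this
      refine measure_mono_null ?_ hD1
      rintro ⟨p, q⟩ ⟨hp, hq⟩ hpq
      simp only [Set.mem_preimage, Set.mem_singleton_iff, Set.mem_compl_iff] at hp hq
      have : w p = w q := hpq
      exact hq (this ▸ hp)
    rw [Measure.prod_prod, mul_eq_zero] at hcompl
    have hfull : μ (w ⁻¹' {v})ᶜ = 0 := hcompl.resolve_left hv
    apply hnc
    refine ⟨v ⟨0, hn⟩, ?_⟩
    have : ∀ᵐ x ∂μ, x ∈ w ⁻¹' {v} := hfull
    filter_upwards [this] with x hx
    have hx' : w x = v := hx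
    have := congrFun hx' ⟨0, hn⟩
    simpa [w] using this

end RightSpecial

section Main

variable {Ω X Y Z A : Type*} [MeasurableSpace Ω] [MeasurableSpace X] [MeasurableSpace Y]
  [MeasurableSpace Z] [MeasurableSpace A] [MeasurableSingletonClass A] [Finite A]

/-- letter of a set -/
noncomputable def ltr {Y : Type*} (B : Set Y) (y : Y) : Fin 2 := by
  classical exact if y ∈ B then 1 else 0

lemma measurable_ltr {B : Set Y} (hB : MeasurableSet B) : Measurable (ltr B) := by
  classical
  unfold ltr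
  exact Measurable.ite hB measurable_const measurable_const

lemma ltr_eq_one {Y : Type*} {B : Set Y} {y : Y} : ltr B y = 1 ↔ y ∈ B := by
  unfold ltr; split_ifs with h <;> simp [h]

lemma ltr_congr {Y Z : Type*} {B : Set Y} {C : Set Z} {y : Y} {z : Z} (h : z ∈ C ↔ y ∈ B) :
    ltr C z = ltr B y := by
  unfold ltr
  by_cases hz : z ∈ C
  · rw [if_pos hz, if_pos (h.1 hz)]
  · rw [if_neg hz, if_neg (fun hy => hz (h.2 hy))]

/-- the set of `y` whose letters along the sets `B (v j)` form the word `w` -/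
def ycyl (S : Y → Y) (B : A → Set Y) (n : ℕ) (v : Fin n → A) (w : Fin n → Fin 2) : Set Y :=
  {y | ∀ j : Fin n, ltr (B (v j)) (S^[j] y) = w j}

lemma measurableSet_ycyl {S : Y → Y} (hS : Measurable S) {B : A → Set Y}
    (hB : ∀ a, MeasurableSet (B a)) (n : ℕ) (v : Fin n → A) (w : Fin n → Fin 2) :
    MeasurableSet (ycyl S B n v w) := by
  have : ycyl S B n v w = ⋂ j : Fin n, (fun y => ltr (B (v j)) (S^[j] y)) ⁻¹' {w j} := by
    ext y; simp [ycyl]
  rw [this]
  exact MeasurableSet.iInter fun j =>
    ((measurable_ltr (hB _)).comp (hS.iterate j)) (measurableSet_singleton _)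

/-- transfer of laws: for `x` in a word of positive measure, the law of the letters of `z` is the law
of the letters of `y` along that word. -/
theorem transfer (P : Measure Ω) [IsProbabilityMeasure P] {U : Ω → Ω} (hU : MeasurePreserving U P P)
    {T : X → X} {S : Y → Y} {R : Z → Z} (hT : Measurable T) (hS : Measurable S) (hR : Measurable R)
    {x : Ω → X} {y : Ω → Y} {z : Ω → Z} (hx : Measurable x) (hy : Measurable y) (hz : Measurable z)
    (hxU : ∀ ω, x (U ω) = T (x ω)) (hyU : ∀ ω, y (U ω) = S (y ω)) (hzU : ∀ ω, z (U ω) = R (z ω))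
    (ixy : IndepFun x y P) (ixz : IndepFun x z P)
    {α : X → A} (hα : Measurable α) {B : A → Set Y} (hB : ∀ a, MeasurableSet (B a))
    {C : Set Z} (hC : MeasurableSet C) (hrel : ∀ᵐ ω ∂P, (z ω ∈ C ↔ y ω ∈ B (α (x ω))))
    (n : ℕ) (v : Fin n → A) (a : A)
    (hpos : P.map x (cyl T α n v ∩ {x | α (T^[n] x) = a}) ≠ 0) (w : Fin n → Fin 2) (c : Fin 2) :
    P.map z (cyl R (ltr C) n w ∩ {z | ltr C (R^[n] z) = c})
      = P.map y (ycyl S B n v w ∩ {y | ltr (B a) (S^[n] y) = c}) := by
  have hxi : ∀ (j : ℕ) ω, x (U^[j] ω) = T^[j] (x ω) := by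
    intro j ω
    induction j with
    | zero => rfl
    | succ j ih => rw [Function.iterate_succ_apply', hxU, ih, Function.iterate_succ_apply']
  have hyi : ∀ (j : ℕ) ω, y (U^[j] ω) = S^[j] (y ω) := by
    intro j ω
    induction j with
    | zero => rfl
    | succ j ih => rw [Function.iterate_succ_apply', hyU, ih, Function.iterate_succ_apply']
  have hzi : ∀ (j : ℕ) ω, z (U^[j] ω) = R^[j] (z ω) := by
    intro j ω
    induction j with
    | zero => rfl
    | succ j ih => rw [Function.iterate_succ_apply', hzU, ih, Function.iterate_succ_apply']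
  have hall : ∀ᵐ ω ∂P, ∀ j : ℕ,
      ltr C (R^[j] (z ω)) = ltr (B (α (T^[j] (x ω)))) (S^[j] (y ω)) := by
    rw [ae_all_iff]
    intro j
    have := (hU.iterate j).quasiMeasurePreserving.ae hrel
    filter_upwards [this] with ω hω
    rw [← hxi, ← hyi, ← hzi]
    exact ltr_congr hω
  set V : Set X := cyl T α n v ∩ {x | α (T^[n] x) = a} with hV
  set E : Set Z := cyl R (ltr C) n w ∩ {z | ltr C (R^[n] z) = c} with hE
  set F : Set Y := ycyl S B n v w ∩ {y | ltr (B a) (S^[n] y) = c} with hF
  have mV : MeasurableSet V := (measurableSet_cyl hT hα n v).inter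
    ((hα.comp (hT.iterate n)) (measurableSet_singleton a))
  have mE : MeasurableSet E := (measurableSet_cyl hR (measurable_ltr hC) n w).inter
    (((measurable_ltr hC).comp (hR.iterate n)) (measurableSet_singleton c))
  have mF : MeasurableSet F := (measurableSet_ycyl hS hB n v w).inter
    (((measurable_ltr (hB a)).comp (hS.iterate n)) (measurableSet_singleton c))
  have h1 : P (x ⁻¹' V ∩ z ⁻¹' E) = P (x ⁻¹' V ∩ y ⁻¹' F) := by
    apply measure_congr
    filter_upwards [hall] with ω hω
    apply propext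
    change (x ω ∈ V ∧ z ω ∈ E) ↔ (x ω ∈ V ∧ y ω ∈ F)
    apply and_congr_right
    intro hxV
    have hvj : ∀ j : Fin n, α (T^[j] (x ω)) = v j := hxV.1
    have hva : α (T^[n] (x ω)) = a := hxV.2
    change ((∀ j : Fin n, ltr C (R^[j] (z ω)) = w j) ∧ ltr C (R^[n] (z ω)) = c) ↔
      ((∀ j : Fin n, ltr (B (v j)) (S^[j] (y ω)) = w j) ∧ ltr (B a) (S^[n] (y ω)) = c)
    have e1 : ∀ j : Fin n, ltr C (R^[j] (z ω)) = ltr (B (v j)) (S^[j] (y ω)) := by
      intro j; rw [hω j, hvj j]
    have e2 : ltr C (R^[n] (z ω)) = ltr (B a) (S^[n] (y ω)) := by rw [hω n, hva]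
    simp only [e1, e2]
  rw [ixz.measure_inter_preimage_eq_mul V E mV mE,
    ixy.measure_inter_preimage_eq_mul V F mV mF] at h1
  rw [Measure.map_apply hx mV] at hpos
  rw [Measure.map_apply hz mE, Measure.map_apply hy mF]
  exact (ENNReal.mul_right_inj hpos (measure_ne_top _ _)).1 h1

/-- The core theorem with separated sets. -/
theorem core_sep (P : Measure Ω) [IsProbabilityMeasure P] {U : Ω → Ω} (hU : MeasurePreserving U P P)
    {T : X → X} {S : Y → Y} {R : Z → Z} (hT : Measurable T) (hS : Measurable S) (hR : Measurable R)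
    {x : Ω → X} {y : Ω → Y} {z : Ω → Z} (hx : Measurable x) (hy : Measurable y) (hz : Measurable z)
    (hxU : ∀ ω, x (U ω) = T (x ω)) (hyU : ∀ ω, y (U ω) = S (y ω)) (hzU : ∀ ω, z (U ω) = R (z ω))
    (ixy : IndepFun x y P) (ixz : IndepFun x z P) (iyz : IndepFun y z P)
    (herg : Ergodic (Prod.map T T) ((P.map x).prod (P.map x)))
    {C : Set Z} (hC : MeasurableSet C)
    (hent : Tendsto (fun N : ℕ => ent (P.map z) R (ltr C) N / N) atTop (𝓝 0))
    {α : X → A} (hα : Measurable α) {B : A → Set Y} (hB : ∀ a, MeasurableSet (B a))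
    (hsep : ∀ a b, a ≠ b → P.map y {y | ltr (B a) y ≠ ltr (B b) y} ≠ 0)
    (hrel : ∀ᵐ ω ∂P, (z ω ∈ C ↔ y ω ∈ B (α (x ω)))) :
    P (z ⁻¹' C) = 0 ∨ P (z ⁻¹' C) = 1 := by
  classical
  haveI := Fintype.ofFinite A
  haveI : IsProbabilityMeasure (P.map x) := Measure.isProbabilityMeasure_map hx.aemeasurable
  haveI : IsProbabilityMeasure (P.map y) := Measure.isProbabilityMeasure_map hy.aemeasurable
  haveI : IsProbabilityMeasure (P.map z) := Measure.isProbabilityMeasure_map hz.aemeasurable
  by_cases hc : ∃ a, ∀ᵐ p ∂(P.map x), α p = a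
  · obtain ⟨a, ha⟩ := hc
    have ha' : ∀ᵐ ω ∂P, α (x ω) = a := ae_of_ae_map hx.aemeasurable ha
    have h1 : P (y ⁻¹' (B a) ∩ z ⁻¹' C) = P (z ⁻¹' C) := by
      apply measure_congr
      filter_upwards [ha', hrel] with ω h1 h2
      apply propext
      change (y ω ∈ B a ∧ z ω ∈ C) ↔ z ω ∈ C
      rw [h1] at h2
      exact ⟨fun h => h.2, fun h => ⟨h2.1 h, h⟩⟩
    have h2 : P (y ⁻¹' (B a)) = P (z ⁻¹' C) := by
      apply measure_congr
      filter_upwards [ha', hrel] with ω h1 h2
      apply propext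
      change y ω ∈ B a ↔ z ω ∈ C
      rw [h1] at h2
      exact h2.symm
    rw [iyz.measure_inter_preimage_eq_mul _ _ (hB a) hC, h2] at h1
    by_cases h0 : P (z ⁻¹' C) = 0
    · exact Or.inl h0
    · right
      have := (ENNReal.mul_right_inj h0 (measure_ne_top P (z ⁻¹' C))
        (b := P (z ⁻¹' C)) (c := 1)).1 (by rw [h1, mul_one])
      exact this
  · exfalso
    -- minimal separation
    have hne : ∃ a b : A, a ≠ b := by
      obtain ⟨v, a, b, hab, -⟩ := exists_right_special (P.map x) hT herg hα hc 1 le_rfl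
      exact ⟨a, b, hab⟩
    obtain ⟨a0, b0, hab0⟩ := hne
    haveI : Nonempty {p : A × A // p.1 ≠ p.2} := ⟨⟨(a0, b0), hab0⟩⟩
    obtain ⟨⟨⟨a1, b1⟩, hab1⟩, hmin⟩ := Finite.exists_min
      (fun p : {p : A × A // p.1 ≠ p.2} =>
        (P.map y).real {y | ltr (B p.1.1) y ≠ ltr (B p.1.2) y})
    set δ := (P.map y).real {y | ltr (B a1) y ≠ ltr (B b1) y} with hδ
    have hδpos : 0 < δ := by
      rw [hδ, measureReal_def]
      exact ENNReal.toReal_pos (hsep a1 b1 hab1) (measure_ne_top _ _)
    obtain ⟨n, hn1, hn2⟩ := exists_err_lt (P.map z) hR (measurable_ltr hC) hent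
      (show (0:ℝ) < δ / 2 by positivity)
    obtain ⟨v, a, b, hab, hva, hvb⟩ := exists_right_special (P.map x) hT herg hα hc n hn1
    -- law of y is invariant
    have hyinv : MeasurePreserving S (P.map y) (P.map y) := by
      refine ⟨hS, ?_⟩
      rw [Measure.map_map hS hy]
      have : S ∘ y = y ∘ U := by funext ω; exact (hyU ω).symm
      rw [this, ← Measure.map_map hy hU.measurable, hU.map_eq]
    have hSn := hyinv.iterate n
    have ta := fun w c => transfer P hU hT hS hR hx hy hz hxU hyU hzU ixy ixz hα hB hC hrel n v a hva w c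
    have tb := fun w c => transfer P hU hT hS hR hx hy hz hxU hyU hzU ixy ixz hα hB hC hrel n v b hvb w c
    have mset : ∀ a b, MeasurableSet {y | ltr (B a) y ≠ ltr (B b) y} := fun a b =>
      (measurableSet_eq_fun (measurable_ltr (hB a)) (measurable_ltr (hB b))).compl
    have hge : δ ≤ (P.map y).real {y | ltr (B a) (S^[n] y) ≠ ltr (B b) (S^[n] y)} := by
      have := hmin ⟨(a, b), hab⟩
      refine this.trans (le_of_eq ?_)
      rw [measureReal_def, measureReal_def]
      congr 1
      exact (hSn.measure_preimage (mset a b).nullMeasurableSet).symm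
    have hle : (P.map y).real {y | ltr (B a) (S^[n] y) ≠ ltr (B b) (S^[n] y)}
        ≤ ∑ w : Fin n → Fin 2, 2 * min
          ((P.map z).real (cyl R (ltr C) n w ∩ {z | ltr C (R^[n] z) = 0}))
          ((P.map z).real (cyl R (ltr C) n w ∩ {z | ltr C (R^[n] z) = 1})) := by
      have hcov : {y | ltr (B a) (S^[n] y) ≠ ltr (B b) (S^[n] y)} ⊆
          ⋃ w : Fin n → Fin 2, (ycyl S B n v w ∩ {y | ltr (B a) (S^[n] y) ≠ ltr (B b) (S^[n] y)}) := by
        intro y hy
        refine Set.mem_iUnion.2 ⟨fun j => ltr (B (v j)) (S^[j] y), ?_, hy⟩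
        intro j; rfl
      refine (measureReal_mono hcov (measure_ne_top _ _)).trans ?_
      refine (measureReal_iUnion_fintype_le _).trans ?_
      refine Finset.sum_le_sum fun w _ => ?_
      -- for each letter c
      have key : ∀ c : Fin 2, (P.map y).real
          (ycyl S B n v w ∩ {y | ltr (B a) (S^[n] y) ≠ ltr (B b) (S^[n] y)})
          ≤ 2 * (P.map z).real (cyl R (ltr C) n w ∩ {z | ltr C (R^[n] z) = c}) := by
        intro c
        have hsub : (ycyl S B n v w ∩ {y | ltr (B a) (S^[n] y) ≠ ltr (B b) (S^[n] y)}) ⊆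
            (ycyl S B n v w ∩ {y | ltr (B a) (S^[n] y) = c}) ∪
            (ycyl S B n v w ∩ {y | ltr (B b) (S^[n] y) = c}) := by
          rintro y ⟨h1, h2⟩
          by_cases h3 : ltr (B a) (S^[n] y) = c
          · exact Or.inl ⟨h1, h3⟩
          · refine Or.inr ⟨h1, ?_⟩
            change ltr (B b) (S^[n] y) = c
            have h2' : ltr (B a) (S^[n] y) ≠ ltr (B b) (S^[n] y) := h2
            omega
        refine (measureReal_mono hsub (measure_ne_top _ _)).trans ?_
        refine (measureReal_union_le _ _).trans ?_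
        have e1 : (P.map y).real (ycyl S B n v w ∩ {y | ltr (B a) (S^[n] y) = c})
          = (P.map z).real (cyl R (ltr C) n w ∩ {z | ltr C (R^[n] z) = c}) := by
          rw [measureReal_def, measureReal_def, ← ta w c]
        have e2 : (P.map y).real (ycyl S B n v w ∩ {y | ltr (B b) (S^[n] y) = c})
          = (P.map z).real (cyl R (ltr C) n w ∩ {z | ltr C (R^[n] z) = c}) := by
          rw [measureReal_def, measureReal_def, ← tb w c]
        rw [e1, e2]; linarith
      rcases min_choice ((P.map z).real (cyl R (ltr C) n w ∩ {z | ltr C (R^[n] z) = 0}))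
          ((P.map z).real (cyl R (ltr C) n w ∩ {z | ltr C (R^[n] z) = 1})) with h | h
      · rw [h]; exact key 0
      · rw [h]; exact key 1
    rw [← Finset.mul_sum] at hle
    change _ ≤ 2 * err (P.map z) R (ltr C) n at hle
    linarith

/-- The core theorem: an event of `z` which is a finite union of rectangles in `(x, y)`. -/
theorem core (P : Measure Ω) [IsProbabilityMeasure P] {U : Ω → Ω} (hU : MeasurePreserving U P P)
    {T : X → X} {S : Y → Y} {R : Z → Z} (hT : Measurable T) (hS : Measurable S) (hR : Measurable R)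
    {x : Ω → X} {y : Ω → Y} {z : Ω → Z} (hx : Measurable x) (hy : Measurable y) (hz : Measurable z)
    (hxU : ∀ ω, x (U ω) = T (x ω)) (hyU : ∀ ω, y (U ω) = S (y ω)) (hzU : ∀ ω, z (U ω) = R (z ω))
    (ixy : IndepFun x y P) (ixz : IndepFun x z P) (iyz : IndepFun y z P)
    (herg : Ergodic (Prod.map T T) ((P.map x).prod (P.map x)))
    {C : Set Z} (hC : MeasurableSet C)
    (hent : Tendsto (fun N : ℕ => ent (P.map z) R (ltr C) N / N) atTop (𝓝 0))
    {α : X → A} (hα : Measurable α) {B : A → Set Y} (hB : ∀ a, MeasurableSet (B a))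
    (hrel : ∀ᵐ ω ∂P, (z ω ∈ C ↔ y ω ∈ B (α (x ω)))) :
    P (z ⁻¹' C) = 0 ∨ P (z ⁻¹' C) = 1 := by
  classical
  haveI := Fintype.ofFinite A
  let s : Setoid A :=
    { r := fun a b => P.map y {y | ltr (B a) y ≠ ltr (B b) y} = 0
      iseqv := by
        refine ⟨fun a => by simp, fun {a b} h => ?_, fun {a b c} h1 h2 => ?_⟩
        · have : {y | ltr (B b) y ≠ ltr (B a) y} = {y | ltr (B a) y ≠ ltr (B b) y} := by
            ext y; exact ⟨fun h => h.symm, fun h => h.symm⟩
          rw [this]; exact h
        · refine measure_mono_null ?_ (measure_union_null h1 h2)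
          intro y hy
          by_contra hcon
          simp only [Set.mem_union, Set.mem_setOf_eq, not_or, not_not] at hcon
          exact hy (hcon.1.trans hcon.2) }
  letI : MeasurableSpace (Quotient s) := ⊤
  haveI : Finite (Quotient s) := inferInstance
  let α' : X → Quotient s := fun p => Quotient.mk s (α p)
  have hα' : Measurable α' := by
    have : Measurable (fun a : A => Quotient.mk s a) := measurable_of_finite _
    exact this.comp hα
  let B' : Quotient s → Set Y := fun q => B q.out
  refine core_sep P hU hT hS hR hx hy hz hxU hyU hzU ixy ixz iyz herg hC hent hα' (B := B')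
    (fun q => hB _) ?_ ?_
  · intro a b hab h
    apply hab
    have : s.r a.out b.out := h
    rw [← Quotient.out_eq a, ← Quotient.out_eq b]
    exact Quotient.sound this
  · have hbad : ∀ᵐ ω ∂P, ∀ a : A, ltr (B a) (y ω) = ltr (B (Quotient.mk s a).out) (y ω) := by
      rw [ae_all_iff]; intro a
      have h1 : s.r (Quotient.mk s a).out a := Quotient.exact (Quotient.out_eq (Quotient.mk s a))
      have h2 : P.map y {y | ltr (B (Quotient.mk s a).out) y ≠ ltr (B a) y} = 0 := h1
      have h3 : ∀ᵐ q ∂(P.map y), ltr (B (Quotient.mk s a).out) q = ltr (B a) q := h2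
      filter_upwards [ae_of_ae_map hy.aemeasurable h3] with ω h
      exact h.symm
    filter_upwards [hrel, hbad] with ω h1 h2
    rw [h1, ← ltr_eq_one, ← ltr_eq_one, h2 (α (x ω))]

end Main

end Pool.Agent.H90J
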