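import Mathlib

/-! Determinism of zero entropy processes: for a two valued process of zero entropy the next letter
can be predicted from a finite past with arbitrarily small error. -/

set_option linter.style.longLine false
set_option linter.unusedSectionVars false

namespace Pool.Agent.H90J

open MeasureTheory ProbabilityTheory Filter Topology

/-- elementary entropy inequality -/
lemma negMulLog_ineq {a b : ℝ} (ha : 0 ≤ a) (hb : 0 ≤ b) :
    min a b / 2 ≤ Real.negMulLog a + Real.negMulLog b - Real.negMulLog (a + b) := by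
  wlog h : a ≤ b generalizing a b
  · have := this hb ha (le_of_not_ge h)
    rw [min_comm, add_comm (Real.negMulLog a), add_comm a b]; exact this
  rw [min_eq_left h]
  rcases ha.eq_or_lt with rfl | ha'
  · simp
  have hb' : 0 < b := lt_of_lt_of_le ha' h
  have h1 : Real.log 2 ≤ Real.log ((a+b)/a) := by
    apply Real.log_le_log (by norm_num)
    rw [le_div_iff₀ ha']; linarith
  have h2 : 0 ≤ Real.log ((a+b)/b) := by
    apply Real.log_nonneg
    rw [le_div_iff₀ hb']; linarith
  have h3 : (1:ℝ)/2 ≤ Real.log 2 := by have := Real.log_two_gt_d9; linarith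
  have e : Real.negMulLog a + Real.negMulLog b - Real.negMulLog (a+b)
      = a * Real.log ((a+b)/a) + b * Real.log ((a+b)/b) := by
    unfold Real.negMulLog
    rw [Real.log_div (by positivity) ha'.ne', Real.log_div (by positivity) hb'.ne']
    ring
  rw [e]
  nlinarith [mul_le_mul_of_nonneg_left (h3.trans h1) ha, mul_nonneg hb h2]

variable {Z : Type*} [MeasurableSpace Z]

/-- points whose name under the process `g ∘ R^[j]` starts with the word `w` -/
def cyl {A : Type*} (R : Z → Z) (g : Z → A) (N : ℕ) (w : Fin N → A) : Set Z :=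
  {z | ∀ j : Fin N, g (R^[j] z) = w j}

lemma cyl_snoc {A : Type*} (R : Z → Z) (g : Z → A) (N : ℕ) (w : Fin N → A) (c : A) :
    cyl R g (N+1) (Fin.snoc (α := fun _ => A) w c) = cyl R g N w ∩ {z | g (R^[N] z) = c} := by
  ext z
  simp only [cyl, Set.mem_setOf_eq, Set.mem_inter_iff]
  constructor
  · intro h
    refine ⟨fun j => ?_, ?_⟩
    · have := h j.castSucc
      simpa using this
    · have := h (Fin.last N)
      simpa using this
  · rintro ⟨h1, h2⟩ j
    refine Fin.lastCases ?_ (fun j => ?_) j
    · simpa using h2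
    · simpa using h1 j

lemma measurableSet_cyl {A : Type*} [MeasurableSpace A] [MeasurableSingletonClass A] {R : Z → Z}
    (hR : Measurable R) {g : Z → A} (hg : Measurable g) (N : ℕ) (w : Fin N → A) :
    MeasurableSet (cyl R g N w) := by
  have : cyl R g N w = ⋂ j : Fin N, (fun z => g (R^[j] z)) ⁻¹' {w j} := by
    ext z; simp [cyl]
  rw [this]
  exact MeasurableSet.iInter fun j => (hg.comp (hR.iterate j)) (measurableSet_singleton _)

/-- the error of the best prediction of the next letter from `N` letters -/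
noncomputable def err (κ : Measure Z) (R : Z → Z) (g : Z → Fin 2) (N : ℕ) : ℝ :=
  ∑ w : Fin N → Fin 2, min (κ.real (cyl R g N w ∩ {z | g (R^[N] z) = 0}))
    (κ.real (cyl R g N w ∩ {z | g (R^[N] z) = 1}))

noncomputable def ent (κ : Measure Z) (R : Z → Z) (g : Z → Fin 2) (N : ℕ) : ℝ :=
  ∑ w : Fin N → Fin 2, Real.negMulLog (κ.real (cyl R g N w))

lemma ent_nonneg (κ : Measure Z) [IsProbabilityMeasure κ] (R : Z → Z) (g : Z → Fin 2) (N : ℕ) :
    0 ≤ ent κ R g N :=
  Finset.sum_nonneg fun _ _ => Real.negMulLog_nonneg measureReal_nonneg measureReal_le_one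

lemma ent_succ (κ : Measure Z) [IsProbabilityMeasure κ] {R : Z → Z} (hR : Measurable R)
    {g : Z → Fin 2} (hg : Measurable g) (N : ℕ) :
    ent κ R g N + err κ R g N / 2 ≤ ent κ R g (N+1) := by
  have e1 : ent κ R g (N+1) = ∑ w : Fin N → Fin 2,
      (Real.negMulLog (κ.real (cyl R g N w ∩ {z | g (R^[N] z) = 0}))
      + Real.negMulLog (κ.real (cyl R g N w ∩ {z | g (R^[N] z) = 1}))) := by
    unfold ent
    rw [← (Fin.snocEquiv (fun _ : Fin (N+1) => Fin 2)).sum_comp, Fintype.sum_prod_type_right]
    refine Finset.sum_congr rfl fun w _ => ?_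
    rw [Fin.sum_univ_two]
    have := cyl_snoc R g N w
    simp only [Fin.snocEquiv, Equiv.coe_fn_mk]
    rw [← this 0, ← this 1]
  rw [e1]
  unfold ent err
  rw [Finset.sum_div, ← Finset.sum_add_distrib]
  refine Finset.sum_le_sum fun w _ => ?_
  have hm : MeasurableSet {z | g (R^[N] z) = (0 : Fin 2)} :=
    (hg.comp (hR.iterate N)) (measurableSet_singleton _)
  have hsplit : κ.real (cyl R g N w) = κ.real (cyl R g N w ∩ {z | g (R^[N] z) = 0})
      + κ.real (cyl R g N w ∩ {z | g (R^[N] z) = 1}) := by
    rw [← measureReal_inter_add_diff (μ := κ) (s := cyl R g N w) hm]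
    congr 2
    ext z
    simp only [Set.mem_diff, Set.mem_inter_iff, Set.mem_setOf_eq]
    constructor
    · rintro ⟨h1, h2⟩
      exact ⟨h1, by omega⟩
    · rintro ⟨h1, h2⟩
      exact ⟨h1, by omega⟩
  have := negMulLog_ineq (a := κ.real (cyl R g N w ∩ {z | g (R^[N] z) = 0}))
    (b := κ.real (cyl R g N w ∩ {z | g (R^[N] z) = 1})) measureReal_nonneg measureReal_nonneg
  rw [← hsplit] at this
  linarith

/-- zero entropy gives arbitrarily good predictions -/
theorem exists_err_lt (κ : Measure Z) [IsProbabilityMeasure κ] {R : Z → Z} (hR : Measurable R)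
    {g : Z → Fin 2} (hg : Measurable g)
    (h0 : Tendsto (fun N : ℕ => ent κ R g N / N) atTop (𝓝 0)) {ε : ℝ} (hε : 0 < ε) :
    ∃ N, 1 ≤ N ∧ err κ R g N < ε := by
  by_contra hcon
  push Not at hcon
  have hlow : ∀ N : ℕ, (N : ℝ) * (ε / 2) ≤ ent κ R g (N+1) := by
    intro N
    induction N with
    | zero => simpa using ent_nonneg κ R g 1
    | succ N ih =>
      have h1 := ent_succ κ hR hg (N+1)
      have h2 := hcon (N+1) (by omega)
      push_cast
      nlinarith
  have hev := (h0.eventually (gt_mem_nhds (show (0:ℝ) < ε / 8 by positivity)))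
  obtain ⟨N, hN1, hN2⟩ := (hev.and (eventually_ge_atTop 2)).exists
  obtain ⟨M, rfl⟩ : ∃ M, N = M + 1 := ⟨N - 1, by omega⟩
  have hM : 1 ≤ M := by omega
  have hM' : (1 : ℝ) ≤ M := by exact_mod_cast hM
  have h3 := hlow M
  have hpos : (0:ℝ) < ((M + 1 : ℕ) : ℝ) := by positivity
  rw [div_lt_iff₀ hpos] at hN1
  push_cast at hN1
  nlinarith

end Pool.Agent.H90J
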