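import Pool.Agent.H90J.Core

/-! From finite rank kernels to finite unions of rectangles. -/

set_option linter.style.longLine false
set_option linter.unusedSectionVars false

namespace Pool.Agent.H90J

open MeasureTheory ProbabilityTheory Filter Topology

variable {Ω X Y Z : Type*} [MeasurableSpace Ω] [MeasurableSpace X] [MeasurableSpace Y]
  [MeasurableSpace Z]

/-- the pairing of `f p` with a vector -/
noncomputable def prg {r : ℕ} (f : Fin r → X → ℝ) (p : X) : (Fin r → ℝ) →ₗ[ℝ] ℝ :=
  ∑ l, f l p • LinearMap.proj l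

lemma prg_apply {r : ℕ} (f : Fin r → X → ℝ) (p : X) (u : Fin r → ℝ) :
    prg f p u = ∑ l, f l p * u l := by
  simp [prg]

theorem finite_rank (P : Measure Ω) [IsProbabilityMeasure P] {U : Ω → Ω} (hU : MeasurePreserving U P P)
    {T : X → X} {S : Y → Y} {R : Z → Z} (hT : Measurable T) (hS : Measurable S) (hR : Measurable R)
    {x : Ω → X} {y : Ω → Y} {z : Ω → Z} (hx : Measurable x) (hy : Measurable y) (hz : Measurable z)
    (hxU : ∀ ω, x (U ω) = T (x ω)) (hyU : ∀ ω, y (U ω) = S (y ω)) (hzU : ∀ ω, z (U ω) = R (z ω))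
    (ixy : IndepFun x y P) (ixz : IndepFun x z P) (iyz : IndepFun y z P)
    (herg : Ergodic (Prod.map T T) ((P.map x).prod (P.map x)))
    {C : Set Z} (hC : MeasurableSet C)
    (hent : Tendsto (fun N : ℕ => ent (P.map z) R (ltr C) N / N) atTop (𝓝 0))
    {r : ℕ} {f : Fin r → X → ℝ} {g : Fin r → Y → ℝ} (hf : ∀ l, Measurable (f l))
    (hg : ∀ l, Measurable (g l))
    (hrel : ∀ᵐ ω ∂P, C.indicator (fun _ => (1 : ℝ)) (z ω) = ∑ l, f l (x ω) * g l (y ω)) :
    P (z ⁻¹' C) = 0 ∨ P (z ⁻¹' C) = 1 := by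
  classical
  haveI : IsProbabilityMeasure (P.map x) := Measure.isProbabilityMeasure_map hx.aemeasurable
  haveI : IsProbabilityMeasure (P.map y) := Measure.isProbabilityMeasure_map hy.aemeasurable
  set K : X → Y → ℝ := fun p q => ∑ l, f l p * g l q with hK
  have mK : Measurable (fun t : X × Y => K t.1 t.2) :=
    Finset.measurable_sum _ fun l _ => ((hf l).comp measurable_fst).mul ((hg l).comp measurable_snd)
  have mS : MeasurableSet {t : X × Y | K t.1 t.2 = 0 ∨ K t.1 t.2 = 1} :=
    (measurableSet_eq_fun mK measurable_const).union (measurableSet_eq_fun mK measurable_const)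
  have h01 : ∀ᵐ t ∂((P.map x).prod (P.map y)), K t.1 t.2 = 0 ∨ K t.1 t.2 = 1 := by
    rw [← (indepFun_iff_map_prod_eq_prod_map_map hx.aemeasurable hy.aemeasurable).1 ixy]
    rw [ae_map_iff (hx.prodMk hy).aemeasurable mS]
    filter_upwards [hrel] with ω hω
    change K (x ω) (y ω) = 0 ∨ K (x ω) (y ω) = 1
    have : K (x ω) (y ω) = C.indicator (fun _ => (1 : ℝ)) (z ω) := hω.symm
    rw [this]
    by_cases h : z ω ∈ C
    · right; rw [Set.indicator_of_mem h]
    · left; rw [Set.indicator_of_notMem h]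
  have h01' : ∀ᵐ q ∂(P.map y), ∀ᵐ p ∂(P.map x), K p q = 0 ∨ K p q = 1 :=
    (Measure.ae_ae_comm mS).1 (Measure.ae_ae_of_ae_prod h01)
  set Y0 : Set Y := {q | ∀ᵐ p ∂(P.map x), K p q = 0 ∨ K p q = 1} with hY0
  let G : Y → Fin r → ℝ := fun q l => g l q
  have hKG : ∀ p q, K p q = prg f p (G q) := fun p q => by rw [prg_apply]
  obtain ⟨s', hs'1, hs'2⟩ := (Submodule.fg_span_iff_fg_span_finset_subset (R := ℝ) (G '' Y0)).1
    (IsNoetherian.noetherian _)
  -- good points
  let good : X → Prop := fun p => ∀ u ∈ s', prg f p u = 0 ∨ prg f p u = 1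
  have hgood : ∀ᵐ p ∂(P.map x), good p := by
    have : ∀ᵐ p ∂(P.map x), ∀ u : s', prg f p u = 0 ∨ prg f p u = 1 := by
      rw [ae_all_iff]
      rintro ⟨u, hu⟩
      obtain ⟨q, hq, rfl⟩ := hs'1 hu
      filter_upwards [hq] with p hp
      rw [← hKG]; exact hp
    filter_upwards [this] with p hp u hu
    exact hp ⟨u, hu⟩
  have mprg : ∀ u, Measurable (fun p => prg f p u) := by
    intro u
    simp only [prg_apply]
    exact Finset.measurable_sum _ fun l _ => (hf l).mul measurable_const
  let α : X → (s' → Fin 2) := fun p u => ltr {p | prg f p u = 1} p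
  have hα : Measurable α := by
    refine measurable_pi_lambda _ fun u => ?_
    exact measurable_ltr (measurableSet_eq_fun (mprg u) measurable_const)
  let B : (s' → Fin 2) → Set Y := fun a =>
    if h : ∃ p, good p ∧ α p = a then {q | K h.choose q = 1} else ∅
  have hB : ∀ a, MeasurableSet (B a) := by
    intro a
    by_cases h : ∃ p, good p ∧ α p = a
    · have : B a = {q | K h.choose q = 1} := dif_pos h
      rw [this]
      refine measurableSet_eq_fun ?_ measurable_const
      exact Finset.measurable_sum _ fun l _ => measurable_const.mul (hg l)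
    · have : B a = ∅ := dif_neg h
      rw [this]; exact MeasurableSet.empty
  refine core P hU hT hS hR hx hy hz hxU hyU hzU ixy ixz iyz herg hC hent hα hB ?_
  filter_upwards [hrel, ae_of_ae_map hx.aemeasurable hgood, ae_of_ae_map hy.aemeasurable h01']
    with ω h1 h2 h3
  have hex : ∃ p, good p ∧ α p = α (x ω) := ⟨x ω, h2, rfl⟩
  have hBa : B (α (x ω)) = {q | K hex.choose q = 1} := dif_pos hex
  obtain ⟨hp0, hp1⟩ := hex.choose_spec
  set p0 := hex.choose with hp0def
  have hsame : ∀ u ∈ s', prg f p0 u = prg f (x ω) u := by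
    intro u hu
    have e := congrFun hp1 ⟨u, hu⟩
    have e1 : prg f p0 u = 1 ↔ prg f (x ω) u = 1 := by
      have a1 := ltr_eq_one (B := {p | prg f p u = 1}) (y := p0)
      have a2 := ltr_eq_one (B := {p | prg f p u = 1}) (y := x ω)
      change ltr {p | prg f p u = 1} p0 = ltr {p | prg f p u = 1} (x ω) at e
      rw [e] at a1
      exact a1.symm.trans a2
    rcases hp0 u hu with h | h <;> rcases h2 u hu with h' | h'
    · rw [h, h']
    · exact absurd (e1.2 h') (by rw [h]; norm_num)
    · exact absurd (e1.1 h) (by rw [h']; norm_num)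
    · rw [h, h']
  have hspan : G (y ω) ∈ Submodule.span ℝ (s' : Set (Fin r → ℝ)) := by
    rw [← hs'2]
    exact Submodule.subset_span ⟨y ω, h3, rfl⟩
  have hKeq : K p0 (y ω) = K (x ω) (y ω) := by
    rw [hKG, hKG]
    have hle : Submodule.span ℝ (s' : Set (Fin r → ℝ)) ≤
        LinearMap.ker (prg f p0 - prg f (x ω)) := by
      rw [Submodule.span_le]
      intro u hu
      rw [SetLike.mem_coe, LinearMap.mem_ker, LinearMap.sub_apply, hsame u hu, sub_self]
    have := hle hspan
    rw [LinearMap.mem_ker, LinearMap.sub_apply, sub_eq_zero] at this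
    exact this
  rw [hBa]
  change z ω ∈ C ↔ K p0 (y ω) = 1
  rw [hKeq]
  have h1' : C.indicator (fun _ => (1 : ℝ)) (z ω) = K (x ω) (y ω) := h1
  rw [← h1']
  by_cases h : z ω ∈ C
  · simp [h]
  · simp [h]

end Pool.Agent.H90J
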